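import Pool.Agent.U722.FF.Stm4
import Pool.Agent.U678.FFP.IND

set_option autoImplicit false
set_option linter.unusedSectionVars false

/-! Project LB, package MIND: induced modules (helper858; adapted from `Pool.Agent.U678.FFP.IND` of
helper678 and `TH57.FF.Res_map`). -/

namespace Pool.Agent.U858.LBP

open TH57.FF U722.FF Matrix MulAction Pool.Agent.U678.FFP

section basechange

variable {R S : Type} [Ring R] [Ring S]

theorem key (φ : R →+* S) (σ : Type) (u : σ → S) (hu : RB φ σ u) {ι κ : Type}
    [Fintype ι] (A : Matrix ι κ R) (w : ι → σ →₀ R)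
    (h : (fun i => (w i).sum fun s r => u s * φ r) ᵥ* A.map φ = 0) (s : σ) :
    (fun i => w i s) ᵥ* A = 0 := by
  classical
  funext j
  set T : Finset σ := Finset.univ.biUnion fun i => (w i).support with hT
  let W : σ →₀ R := Finsupp.onFinset T (fun s => ((fun i => w i s) ᵥ* A) j) (by
    intro s hs
    by_contra hn
    apply hs
    have : ∀ i, w i s = 0 := by
      intro i
      by_contra hi
      exact hn (Finset.mem_biUnion.2 ⟨i, Finset.mem_univ i, Finsupp.mem_support_iff.2 hi⟩)
    simp [Matrix.vecMul, dotProduct, this])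
  have hW : (W.sum fun s r => u s * φ r) = 0 := by
    rw [Finsupp.onFinset_sum _ (fun a => by rw [map_zero, mul_zero])]
    have h1 : ((fun i => (w i).sum fun s r => u s * φ r) ᵥ* A.map φ) j = (0 : S) :=
      congrFun h j
    refine Eq.trans ?_ h1
    simp only [Matrix.vecMul, dotProduct, Matrix.map_apply]
    have h2 : ∀ i, ((w i).sum fun s r => u s * φ r) = ∑ s ∈ T, u s * φ (w i s) := by
      intro i
      apply Finsupp.sum_of_support_subset _ _ _ (fun s _ => by rw [map_zero, mul_zero])
      intro s hs
      exact Finset.mem_biUnion.2 ⟨i, Finset.mem_univ i, hs⟩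
    simp only [h2, Finset.sum_mul, map_sum, Finset.mul_sum, map_mul]
    rw [Finset.sum_comm]
    simp only [mul_assoc]
  have := hu.indep W hW
  have h3 := DFunLike.congr_fun this s
  exact h3

theorem key2 (φ : R →+* S) (σ : Type) (u : σ → S) (hu : RB φ σ u) {ι κ : Type}
    [Fintype ι] (A : Matrix ι κ R) (v : ι → S) (hv : v ᵥ* A.map φ = 0) :
    ∃ (T : Finset σ) (w : σ → ι → R), (∀ s, w s ᵥ* A = 0) ∧
      v = fun i => ∑ s ∈ T, u s * φ (w s i) := by
  classical
  choose w hw using fun i => hu.span (v i)
  have hv' : v = fun i => (w i).sum fun s r => u s * φ r := by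
    funext i
    exact (hw i).symm
  refine ⟨Finset.univ.biUnion fun i => (w i).support, fun s i => w i s, ?_, ?_⟩
  · rw [hv'] at hv
    exact key φ σ u hu A w hv
  · rw [hv']
    funext i
    apply Finsupp.sum_of_support_subset _ _ _ (fun s _ => by rw [map_zero, mul_zero])
    intro s hs
    exact Finset.mem_biUnion.2 ⟨i, Finset.mem_univ i, hs⟩

/-- exactness is preserved -/
theorem exact_map (φ : R →+* S) (σ : Type) (u : σ → S) (hu : RB φ σ u) {l ι κ : Type}
    [Fintype l] [Fintype ι] (A : Matrix ι κ R) (Y : Matrix l ι R)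
    (h1 : ∀ v : ι → R, v ᵥ* A = 0 ↔ ∃ w : l → R, w ᵥ* Y = v) (v : ι → S) :
    v ᵥ* A.map φ = 0 ↔ ∃ w : l → S, w ᵥ* Y.map φ = v := by
  classical
  constructor
  · intro hv
    obtain ⟨T, w, hw, rfl⟩ := key2 φ σ u hu A v hv
    choose y hy using fun s => (h1 (w s)).1 (hw s)
    refine ⟨fun a => ∑ s ∈ T, u s * φ (y s a), ?_⟩
    funext i
    simp only [Matrix.vecMul, dotProduct, Matrix.map_apply, Finset.sum_mul]
    rw [Finset.sum_comm]
    refine Finset.sum_congr rfl fun s _ => ?_
    rw [← congrFun (hy s) i]
    simp only [Matrix.vecMul, dotProduct, map_sum, map_mul, Finset.mul_sum, mul_assoc]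
  · rintro ⟨y, rfl⟩
    have h3 : Y * A = 0 := by
      ext1 a j
      have : (Pi.single a (1 : R) ᵥ* Y) ᵥ* A = 0 := (h1 _).2 ⟨_, rfl⟩
      rw [Matrix.vecMul_vecMul, Matrix.single_one_vecMul] at this
      exact congrFun this j
    rw [Matrix.vecMul_vecMul, ← Matrix.map_mul, h3]
    simp

end basechange

section ev

variable {G X U : Type} [Group G] [MulAction G X] [Ring U] (c : G →* U) (x : X)

theorem ev_ph (a : MonoidAlgebra ℤ ↥(stabilizer G x)) :
    V7N.evM c (ph x a) = V7N.evM (c.comp (stabilizer G x).subtype) a := by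
  induction a using MonoidAlgebra.induction_on with
  | of h =>
    rw [ph_of]
    change MonoidAlgebra.lift ℤ U G c (MonoidAlgebra.of ℤ G (h : G)) =
      MonoidAlgebra.lift ℤ U _ (c.comp (stabilizer G x).subtype) (MonoidAlgebra.of ℤ _ h)
    rw [MonoidAlgebra.lift_of, MonoidAlgebra.lift_of]
    rfl
  | add a b ha hb => rw [map_add, map_add, ha, hb, map_add]
  | smul z a ha => rw [map_zsmul, map_zsmul, ha, map_zsmul]

theorem map_ev {ι κ : Type} (A : Matrix ι κ (MonoidAlgebra ℤ ↥(stabilizer G x))) :
    (A.map (ph x)).map (V7N.evM c) = A.map (V7N.evM (c.comp (stabilizer G x).subtype)) := by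
  ext i j
  exact ev_ph c x (A i j)

end ev

theorem t_MIND : U722.FF.S_MIND := by
  classical
  intro G X U _ _ _ c k x htr hT
  obtain ⟨N, ι, i1, d, e, hN, he, hex0, hex, hU0, hU⟩ := hT
  set f : ↥(stabilizer G x) →* G := (stabilizer G x).subtype with hf
  have hfi : Function.Injective f := Subgroup.subtype_injective _
  have hrb := RB_group f hfi
  have hmem : ∀ g : G, g ∈ f.range ↔ g • x = x := by
    intro g
    rw [hf, Subgroup.range_subtype]
    exact MulAction.mem_stabilizer_iff
  set z : ι 0 → ℤ := fun j => co _ PUnit.unit (e (Pi.single j 1)) with hz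
  have keyz : ∀ (g : G) (w : ι 0 → MonoidAlgebra ℤ ↥(stabilizer G x)),
      ee x z (fun j => MonoidAlgebra.single g (1 : ℤ) * ph x (w j)) =
        co _ PUnit.unit (e w) • pt G (g • x) := by
    intro g w
    have h2 : (fun j => MonoidAlgebra.single g (1 : ℤ) * ph x (w j)) =
        MonoidAlgebra.of ℤ G g • (fun j => ph x (w j)) := by
      funext j
      rfl
    rw [h2, map_smul, ee_ph, smul_comm, of_smul_pt]
  have hker : ∀ v : ι 0 → MonoidAlgebra ℤ G, ee x z v = 0 ↔
      ∃ w : ι 1 → MonoidAlgebra ℤ G, w ᵥ* (d 0).map (ph x) = v := by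
    intro v
    constructor
    · intro hv
      choose w hw using fun i => hrb.span (v i)
      set T : Finset (G ⧸ f.range) := Finset.univ.biUnion fun i => (w i).support with hT
      have h2 : v = ∑ q ∈ T, (fun j => MonoidAlgebra.single q.out (1 : ℤ) * ph x (w j q)) := by
        funext i
        rw [Finset.sum_apply, ← hw i]
        apply Finsupp.sum_of_support_subset _ _ _ (fun s _ => by rw [map_zero, mul_zero])
        intro s hs
        exact Finset.mem_biUnion.2 ⟨i, Finset.mem_univ i, hs⟩
      have h3 : ∑ q ∈ T, co _ PUnit.unit (e (fun j => w j q)) • pt G (q.out • x) = 0 := by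
        rw [← hv]
        conv_rhs => rw [h2]
        rw [map_sum]
        exact Finset.sum_congr rfl fun q _ => (keyz _ _).symm
      have h4 : ∀ q ∈ T, e (fun j => w j q) = 0 := by
        intro q hq
        apply co_inj
        have h5 := congrArg (co G (q.out • x)) h3
        rw [map_sum, map_zero, Finset.sum_eq_single q] at h5
        · rw [map_zsmul, co_pt, if_pos rfl, smul_eq_mul, mul_one] at h5
          exact h5
        · intro q' _ hq'
          rw [map_zsmul, co_pt, if_neg, smul_zero]
          intro h6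
          apply hq'
          have h7 : q'.out⁻¹ * q.out ∈ f.range := by
            rw [hmem, mul_smul, ← h6, inv_smul_smul]
          have h8 : (QuotientGroup.mk q'.out : G ⧸ f.range) = QuotientGroup.mk q.out :=
            QuotientGroup.eq.2 h7
          have e1 : (QuotientGroup.mk q'.out : G ⧸ f.range) = q' := Quotient.out_eq _
          have e2 : (QuotientGroup.mk q.out : G ⧸ f.range) = q := Quotient.out_eq _
          rw [e1, e2] at h8
          exact h8
        · intro hq2
          exact absurd hq hq2
      choose! y hy using fun q (hq : q ∈ T) => (hex0 _).1 (h4 q hq)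
      refine ⟨∑ q ∈ T, fun a => MonoidAlgebra.single q.out (1 : ℤ) * ph x (y q a), ?_⟩
      rw [h2, Matrix.sum_vecMul]
      refine Finset.sum_congr rfl fun q hq => ?_
      funext i
      have h6 := congrFun (hy q hq) i
      simp only [Matrix.vecMul, dotProduct, Matrix.map_apply] at h6 ⊢
      rw [← h6, map_sum, Finset.mul_sum]
      refine Finset.sum_congr rfl fun a _ => ?_
      rw [map_mul, mul_assoc]
    · rintro ⟨y, rfl⟩
      rw [Matrix.vecMul_eq_sum, map_sum]
      refine Finset.sum_eq_zero fun a _ => ?_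
      rw [map_smul]
      have h2 : e (d 0 a) = 0 := by
        refine (hex0 _).2 ⟨Pi.single a 1, ?_⟩
        rw [Matrix.single_one_vecMul]
        rfl
      have h3 : ((d 0).map (ph x)) a = fun j => ph x (d 0 a j) := rfl
      rw [h3, ee_ph, h2, map_zero, zero_smul, smul_zero]
  have hsurj : Function.Surjective (ee (G := G) x z) := by
    obtain ⟨w, hw⟩ := he (pt _ PUnit.unit)
    have h2 : ∀ y : X, pt G y ∈ LinearMap.range (ee (G := G) x z) := by
      intro y
      obtain ⟨g, rfl⟩ := htr y
      refine ⟨_, (keyz g w).trans ?_⟩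
      rw [hw, co_pt, if_pos rfl, one_smul]
    intro m
    rw [← LinearMap.mem_range]
    induction m using PM_induction with
    | h0 => exact Submodule.zero_mem _
    | h1 y => exact h2 y
    | h2 a b ha hb => exact Submodule.add_mem _ ha hb
    | h3 a ha => exact Submodule.neg_mem _ ha
  refine ⟨N, ι, i1, fun n => (d n).map (ph x), ee x z, hN, hsurj, hker, ?_, ?_, ?_⟩
  · intro n v
    exact exact_map _ _ _ hrb (d n) (d (n + 1)) (hex n) v
  · intro hk v
    rw [map_ev]
    exact hU0 hk v
  · intro n hk v hv
    rw [map_ev] at hv ⊢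
    exact hU n hk v hv

end Pool.Agent.U858.LBP
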